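import Pool.Agent.U26Z.DX.Sq
import Pool.Agent.N84.MD.B

/-!
# The bad dilations of the intervals between consecutive odd squares: stability and covers
-/

set_option autoImplicit false

namespace Pool.Agent.H34x.DD

open Filter Set MeasureTheory Pool.Agent.U26Z.DX
open scoped ENNReal

/-- the dilations for which a long subinterval has an unexpected number of primes -/
def Wr (δ : ℝ) (k : ℕ) : Set ℝ := {t | ∃ y H : ℝ, t * osq k ≤ y ∧ y + H ≤ t * osq (k + 1) ∧ (k : ℝ) ^ (0.9995 : ℝ) ≤ H ∧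
  δ < |density y H - 1|}

/-- the number of the primes changes slowly with the end points -/
lemma primesIn_near {y0 H0 y1 H1 Δ : ℝ} (hy0 : 0 ≤ y0) (h1 : y0 ≤ y1) (h2 : y1 ≤ y0 + Δ) (h3 : y1 + H1 ≤ y0 + H0)
    (h4 : y0 + H0 ≤ y1 + H1 + Δ) (hH1 : 0 ≤ H1) : (primesIn y0 H0 : ℝ) ≤ primesIn y1 H1 + (2 * Δ + 2) := by
  classical
  have hsub : (Finset.Ioc ⌊y0⌋₊ ⌊y0 + H0⌋₊).filter Nat.Prime ⊆ (Finset.Ioc ⌊y1⌋₊ ⌊y1 + H1⌋₊).filter Nat.Prime ∪
      (Finset.Ioc ⌊y0⌋₊ ⌊y1⌋₊ ∪ Finset.Ioc ⌊y1 + H1⌋₊ ⌊y0 + H0⌋₊) := by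
    intro p hp
    rw [Finset.mem_filter, Finset.mem_Ioc] at hp
    rw [Finset.mem_union, Finset.mem_union, Finset.mem_filter, Finset.mem_Ioc, Finset.mem_Ioc, Finset.mem_Ioc]
    have := hp.2
    by_cases h5 : p ≤ ⌊y1⌋₊
    · right; left; exact ⟨hp.1.1, h5⟩
    · by_cases h6 : p ≤ ⌊y1 + H1⌋₊
      · left; exact ⟨⟨by omega, h6⟩, this⟩
      · right; right; exact ⟨by omega, hp.1.2⟩
  have hcard := (Finset.card_le_card hsub).trans ((Finset.card_union_le _ _).trans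
    (Nat.add_le_add_left (Finset.card_union_le _ _) _))
  rw [Nat.card_Ioc, Nat.card_Ioc] at hcard
  have hfl1 : ((⌊y1⌋₊ - ⌊y0⌋₊ : ℕ) : ℝ) ≤ Δ + 1 := by
    have h5 : ⌊y0⌋₊ ≤ ⌊y1⌋₊ := Nat.floor_le_floor h1
    rw [Nat.cast_sub h5]
    have h6 := Nat.floor_le (hy0.trans h1)
    have h7 := Nat.lt_floor_add_one y0
    linarith
  have hfl2 : ((⌊y0 + H0⌋₊ - ⌊y1 + H1⌋₊ : ℕ) : ℝ) ≤ Δ + 1 := by
    have h5 : ⌊y1 + H1⌋₊ ≤ ⌊y0 + H0⌋₊ := Nat.floor_le_floor h3
    rw [Nat.cast_sub h5]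
    have h6 := Nat.floor_le (show 0 ≤ y0 + H0 by linarith)
    have h7 := Nat.lt_floor_add_one (y1 + H1)
    linarith
  have hc : ((primesIn y0 H0 : ℕ) : ℝ) ≤ (primesIn y1 H1 : ℝ) + (((⌊y1⌋₊ - ⌊y0⌋₊ : ℕ) : ℝ) + ((⌊y0 + H0⌋₊ - ⌊y1 + H1⌋₊ : ℕ) : ℝ)) := by
    exact_mod_cast hcard
  linarith

/-- the density changes slowly with the end points -/
lemma density_near {y0 H0 y1 H1 Δ κ : ℝ} (hy0 : 3 ≤ y0) (h1 : y0 ≤ y1) (h2 : y1 ≤ y0 + Δ) (h3 : y1 + H1 ≤ y0 + H0)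
    (h4 : y0 + H0 ≤ y1 + H1 + Δ) (hΔ : 1 ≤ Δ) (hH1 : 0 < H1) (hHy : H0 ≤ y0 * Real.log y1) (hκ : 12 * Δ * Real.log y1 ≤ κ * H0)
    (hd : density y1 H1 ≤ 2) : |density y0 H0 - density y1 H1| ≤ κ := by
  have hH10 : H1 ≤ H0 := by linarith
  have hH0 : 0 < H0 := by linarith
  have hy1 : 0 < y1 := by linarith
  have hL1 : 1 ≤ Real.log y1 := by
    rw [Real.le_log_iff_exp_le hy1]
    have := Real.exp_one_lt_d9
    linarith
  have hL0 : 1 ≤ Real.log y0 := by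
    rw [Real.le_log_iff_exp_le (by linarith)]
    have := Real.exp_one_lt_d9
    linarith
  have hL01 : Real.log y0 ≤ Real.log y1 := Real.log_le_log (by linarith) h1
  have hLd : Real.log y1 - Real.log y0 ≤ Δ / y0 := by
    rw [← Real.log_div hy1.ne' (by linarith)]
    refine (Real.log_le_sub_one_of_pos (by positivity)).trans ?_
    rw [div_sub_one (by linarith)]
    gcongr
    linarith
  have hP := primesIn_near (by linarith : 0 ≤ y0) h1 h2 h3 h4 hH1.le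
  have hPm : (primesIn y1 H1 : ℝ) ≤ primesIn y0 H0 := by exact_mod_cast primesIn_mono h1 h3
  obtain ⟨P0, hP0⟩ : ∃ P0 : ℝ, P0 = primesIn y0 H0 := ⟨_, rfl⟩
  obtain ⟨P1, hP1⟩ : ∃ P1 : ℝ, P1 = primesIn y1 H1 := ⟨_, rfl⟩
  have hP1n : 0 ≤ P1 := by rw [hP1]; positivity
  unfold density at hd ⊢
  rw [← hP0, ← hP1] at hP hPm
  rw [← hP1] at hd
  rw [← hP0, ← hP1]
  obtain ⟨D1, hD1⟩ : ∃ D1 : ℝ, D1 = P1 * Real.log y1 / H1 := ⟨_, rfl⟩
  rw [← hD1] at hd ⊢
  have hD1n : 0 ≤ D1 := by rw [hD1]; positivity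
  have e1 : P1 * Real.log y1 = D1 * H1 := by rw [hD1]; field_simp
  rw [abs_le]
  constructor
  · -- lower bound
    have h5 : D1 - κ ≤ P0 * Real.log y0 / H0 := by
      rw [le_div_iff₀ hH0]
      have h6 : P1 * Real.log y0 ≤ P0 * Real.log y0 := mul_le_mul_of_nonneg_right hPm (by linarith)
      have h7 : P1 * (Real.log y1 - Real.log y0) ≤ P1 * (Δ / y0) := mul_le_mul_of_nonneg_left hLd hP1n
      have h8 : P1 * (Δ / y0) ≤ 2 * Δ := by
        have h9 : P1 ≤ 2 * H1 := by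
          have : D1 * H1 ≤ 2 * H1 := mul_le_mul_of_nonneg_right hd hH1.le
          nlinarith
        have h10 : P1 * Real.log y1 ≤ 2 * (y0 * Real.log y1) := by
          rw [e1]
          calc D1 * H1 ≤ 2 * H1 := mul_le_mul_of_nonneg_right hd hH1.le
            _ ≤ 2 * (y0 * Real.log y1) := by linarith
        have h11 : P1 ≤ 2 * y0 := by
          have : P1 * Real.log y1 ≤ (2 * y0) * Real.log y1 := by linarith
          exact le_of_mul_le_mul_right this (by linarith)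
        rw [← mul_div_assoc, div_le_iff₀ (by linarith)]
        nlinarith
      have h12 : D1 * (H0 - H1) ≤ 2 * (2 * Δ) := by
        have : H0 - H1 ≤ 2 * Δ := by linarith
        calc D1 * (H0 - H1) ≤ 2 * (H0 - H1) := mul_le_mul_of_nonneg_right hd (by linarith)
          _ ≤ 2 * (2 * Δ) := by linarith
      have h13 : 12 * Δ ≤ κ * H0 := by
        refine le_trans ?_ hκ
        nlinarith
      nlinarith
    linarith
  · -- upper bound
    have h5 : P0 * Real.log y0 / H0 ≤ D1 + κ := by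
      rw [div_le_iff₀ hH0]
      have hP0n : 0 ≤ P0 := by rw [hP0]; positivity
      have h6 : P0 * Real.log y0 ≤ P0 * Real.log y1 := mul_le_mul_of_nonneg_left hL01 hP0n
      have h7 : P0 * Real.log y1 ≤ (P1 + (2 * Δ + 2)) * Real.log y1 := mul_le_mul_of_nonneg_right hP (by linarith)
      have h8 : (2 * Δ + 2) * Real.log y1 ≤ 12 * Δ * Real.log y1 := mul_le_mul_of_nonneg_right (by linarith) (by linarith)
      have h9 : D1 * H1 ≤ D1 * H0 := mul_le_mul_of_nonneg_left hH10 hD1n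
      nlinarith
    linarith

/-- the bad dilations have bad neighbours -/
lemma stability {a b δ : ℝ} (ha : 0 < a) (hab : a ≤ b) (hδ : 0 < δ) : ∀ᶠ k : ℕ in atTop, ∀ t0 ∈ Icc a b, t0 ∈ Wr δ k →
    ∀ t : ℝ, |t - t0| ≤ (k : ℝ) ^ (-1.001 : ℝ) → t ∈ BadK (a / 2) (b + 1) (min (δ / 20) (1 / 10)) 0.499 k := by
  have hb : 0 < b := ha.trans_le hab
  obtain ⟨ε, hε⟩ : ∃ ε, ε = min (δ / 20) (1 / 10) := ⟨_, rfl⟩
  have hε0 : 0 < ε := by rw [hε]; positivity
  have hε1 : ε ≤ 1 / 10 := by rw [hε]; exact min_le_right _ _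
  have hε2 : ε ≤ δ / 20 := by rw [hε]; exact min_le_left _ _
  rw [← hε]
  have hk := tendsto_natCast_atTop_atTop (R := ℝ)
  obtain ⟨C, hC⟩ : ∃ C, C = |Real.log (9 * (b + 1))| + 2 := ⟨_, rfl⟩
  have hC2 : 2 ≤ C := by rw [hC]; linarith [abs_nonneg (Real.log (9 * (b + 1)))]
  have hlog : ∀ᶠ x : ℝ in atTop, (12 * 9 * C / (δ / 2)) * Real.log x ^ 1 ≤ Real.exp (0.0005 * Real.log x) :=
    Real.tendsto_log_atTop.eventually (Pool.Agent.Q278.KS.ev_poly (12 * 9 * C / (δ / 2)) 1 (by norm_num))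
  filter_upwards [good_of_not (a := a / 2) (b := b + 1) (by positivity) (by linarith) hε0 hε1,
    hk.eventually_ge_atTop (max (max 3 (3 / a)) (max (8 * b / a) (2 / a))), hk.eventually hlog,
    hk.eventually (ev_const 19 (show (0 : ℝ) < 0.0005 by norm_num))] with k hgood h1 h2 h19
  intro t0 ht0 hWr t htt
  by_contra hbad
  obtain ⟨y0, H0, hy0, hz0, hH0, hdd⟩ := hWr
  have hk3 : (3 : ℝ) ≤ k := ((le_max_left _ _).trans (le_max_left _ _)).trans h1
  have hk3a : 3 / a ≤ k := ((le_max_right _ _).trans (le_max_left _ _)).trans h1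
  have hk8 : 8 * b / a ≤ k := ((le_max_left _ _).trans (le_max_right _ _)).trans h1
  have hk2 : 2 / a ≤ k := ((le_max_right _ _).trans (le_max_right _ _)).trans h1
  have hk0 : (0 : ℝ) < k := by linarith
  have hk1 : 1 ≤ k := by
    have : (1 : ℝ) ≤ k := by linarith
    exact_mod_cast this
  have hsq := osq_lower hk1
  have hsq2 := osq_upper hk1
  have hsucc := osq_succ k
  have hsqpos : 0 < osq k := lt_of_lt_of_le (by positivity) hsq
  obtain ⟨ht0a, ht0b⟩ := ht0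
  have ht0p : 0 < t0 := ha.trans_le ht0a
  -- the size of the cell
  have hcell : (k : ℝ) ^ (-1.001 : ℝ) ≤ 1 / k := by
    rw [one_div, ← Real.rpow_neg_one]
    exact Real.rpow_le_rpow_of_exponent_le (by linarith) (by norm_num)
  have hcell2 : 1 / (k : ℝ) ≤ a / 2 := by
    rw [div_le_iff₀ hk0]
    rw [div_le_iff₀ ha] at hk2
    linarith
  have hcell3 : 1 / (k : ℝ) ≤ 1 := by
    rw [div_le_iff₀ hk0]
    linarith
  obtain ⟨ht1, ht2⟩ := abs_le.1 htt
  have htI : t ∈ Icc (a / 2) (b + 1) := ⟨by linarith, by linarith⟩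
  have htp : 0 < t := by linarith [htI.1]
  -- the shift of the end points
  obtain ⟨Δ, hΔ⟩ : ∃ Δ, Δ = 9 * (k : ℝ) ^ (0.999 : ℝ) := ⟨_, rfl⟩
  have hΔ2 : (k : ℝ) ^ (-1.001 : ℝ) * osq (k + 1) ≤ Δ := by
    calc (k : ℝ) ^ (-1.001 : ℝ) * osq (k + 1) ≤ (k : ℝ) ^ (-1.001 : ℝ) * (9 * (k : ℝ) ^ 2) := by gcongr
      _ = 9 * ((k : ℝ) ^ (-1.001 : ℝ) * (k : ℝ) ^ (2 : ℝ)) := by rw [Real.rpow_two]; ring
      _ = 9 * (k : ℝ) ^ (0.999 : ℝ) := by rw [← Real.rpow_add hk0]; norm_num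
      _ = Δ := hΔ.symm
  have hΔ1 : (k : ℝ) ^ (-1.001 : ℝ) * osq k ≤ Δ := by
    refine le_trans ?_ hΔ2
    gcongr
    linarith
  have hp1 : (1 : ℝ) ≤ (k : ℝ) ^ (0.999 : ℝ) := Real.one_le_rpow (by linarith) (by norm_num)
  have hΔge : 1 ≤ Δ := by rw [hΔ]; linarith
  have hsplit : (k : ℝ) ^ (0.0005 : ℝ) * (k : ℝ) ^ (0.999 : ℝ) = (k : ℝ) ^ (0.9995 : ℝ) := by
    rw [← Real.rpow_add hk0]; norm_num
  have hH0big : 19 * (k : ℝ) ^ (0.999 : ℝ) ≤ H0 := by
    refine le_trans ?_ hH0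
    rw [← hsplit]
    gcongr
  have e1 : t * osq k ≤ t0 * osq k + Δ := by
    have : (t - t0) * osq k ≤ (k : ℝ) ^ (-1.001 : ℝ) * osq k := mul_le_mul_of_nonneg_right ht2 hsqpos.le
    linarith
  have e2 : t0 * osq (k + 1) ≤ t * osq (k + 1) + Δ := by
    have : (t0 - t) * osq (k + 1) ≤ (k : ℝ) ^ (-1.001 : ℝ) * osq (k + 1) := mul_le_mul_of_nonneg_right (by linarith) (by linarith)
    linarith
  -- the new interval
  obtain ⟨y1, hy1⟩ : ∃ y1, y1 = max y0 (t * osq k) := ⟨_, rfl⟩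
  obtain ⟨z1, hz1⟩ : ∃ z1, z1 = min (y0 + H0) (t * osq (k + 1)) := ⟨_, rfl⟩
  have g1 : y0 ≤ y1 := by rw [hy1]; exact le_max_left _ _
  have g2 : t * osq k ≤ y1 := by rw [hy1]; exact le_max_right _ _
  have g3 : z1 ≤ y0 + H0 := by rw [hz1]; exact min_le_left _ _
  have g4 : z1 ≤ t * osq (k + 1) := by rw [hz1]; exact min_le_right _ _
  have g5 : y1 ≤ y0 + Δ := by rw [hy1]; exact max_le (by linarith) (by linarith)
  have g6 : y0 + H0 - Δ ≤ z1 := by rw [hz1]; exact le_min (by linarith) (by linarith)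
  have hH1 : (k : ℝ) ^ (0.999 : ℝ) ≤ z1 - y1 := by linarith
  have hgo := hgood t htI hbad y1 (z1 - y1) g2 (by linarith) hH1
  have hg10 : 10 * ε ≤ 1 := by linarith
  have hgo2 : density y1 (z1 - y1) ≤ 2 := by linarith [(abs_le.1 hgo).2]
  -- sizes
  have hak : 1 ≤ a * k := by
    rw [div_le_iff₀ ha] at hk3a
    linarith
  have hak3 : 3 ≤ a * k := by
    rw [div_le_iff₀ ha] at hk3a
    linarith
  have hy0lo : a * (k : ℝ) ^ 2 ≤ y0 := by
    refine le_trans ?_ hy0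
    exact mul_le_mul ht0a hsq (by positivity) ht0p.le
  have hy03 : 3 ≤ y0 := by
    have q1 : a * (k : ℝ) ^ 2 = (a * k) * k := by ring
    have q2 : 3 * 1 ≤ (a * k) * k := mul_le_mul hak3 (by linarith) (by norm_num) (by linarith)
    linarith
  have hy1p : 0 < y1 := by linarith
  have hL1 : 1 ≤ Real.log y1 := by
    rw [Real.le_log_iff_exp_le hy1p]
    have := Real.exp_one_lt_d9
    linarith
  have hH0le : H0 ≤ y0 := by
    have h5 : H0 ≤ t0 * (8 * k) := by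
      have : t0 * osq (k + 1) = t0 * osq k + t0 * (8 * k) := by rw [hsucc]; ring
      linarith
    have h6 : t0 * (8 * k) ≤ b * (8 * k) := mul_le_mul_of_nonneg_right ht0b (by positivity)
    have h7 : b * (8 * k) ≤ a * (k : ℝ) ^ 2 := by
      rw [div_le_iff₀ ha] at hk8
      have q1 : 8 * b * k ≤ (k * a) * k := mul_le_mul_of_nonneg_right hk8 hk0.le
      calc b * (8 * k) = 8 * b * k := by ring
        _ ≤ (k * a) * k := q1
        _ = a * (k : ℝ) ^ 2 := by ring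
    linarith
  have hlogy : Real.log y1 ≤ C * Real.log k := by
    have h4 : y1 ≤ 9 * (b + 1) * (k : ℝ) ^ 2 := by
      have h5 : y1 ≤ t * osq (k + 1) := by
        have : 0 < (k : ℝ) ^ (0.999 : ℝ) := by positivity
        linarith
      have h6 : t * osq (k + 1) ≤ (b + 1) * (9 * (k : ℝ) ^ 2) :=
        mul_le_mul htI.2 hsq2 (by linarith) (by linarith)
      linarith
    have h6 := Real.log_le_log hy1p h4
    rw [Real.log_mul (by positivity) (by positivity), Real.log_pow] at h6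
    have h7 : 1 ≤ Real.log k := by
      rw [Real.le_log_iff_exp_le hk0]
      have := Real.exp_one_lt_d9
      linarith
    have h8 : Real.log (9 * (b + 1)) ≤ |Real.log (9 * (b + 1))| * Real.log k :=
      (le_abs_self _).trans (le_mul_of_one_le_right (abs_nonneg _) h7)
    push_cast at h6
    rw [hC]
    linarith
  have hκ : 12 * Δ * Real.log y1 ≤ δ / 2 * H0 := by
    have h5 : 12 * 9 * C / (δ / 2) * Real.log k ≤ (k : ℝ) ^ (0.0005 : ℝ) := by
      rw [pow_one] at h2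
      refine h2.trans (le_of_eq ?_)
      rw [Real.rpow_def_of_pos hk0, mul_comm]
    have h6 : 12 * 9 * C * Real.log k ≤ δ / 2 * (k : ℝ) ^ (0.0005 : ℝ) := by
      calc 12 * 9 * C * Real.log k = δ / 2 * (12 * 9 * C / (δ / 2) * Real.log k) := by field_simp
        _ ≤ _ := mul_le_mul_of_nonneg_left h5 (by positivity)
    calc 12 * Δ * Real.log y1 ≤ 12 * Δ * (C * Real.log k) := mul_le_mul_of_nonneg_left hlogy (by linarith)
      _ = (12 * 9 * C * Real.log k) * (k : ℝ) ^ (0.999 : ℝ) := by rw [hΔ]; ring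
      _ ≤ (δ / 2 * (k : ℝ) ^ (0.0005 : ℝ)) * (k : ℝ) ^ (0.999 : ℝ) := mul_le_mul_of_nonneg_right h6 (by positivity)
      _ = δ / 2 * ((k : ℝ) ^ (0.0005 : ℝ) * (k : ℝ) ^ (0.999 : ℝ)) := by ring
      _ = δ / 2 * (k : ℝ) ^ (0.9995 : ℝ) := by rw [hsplit]
      _ ≤ δ / 2 * H0 := mul_le_mul_of_nonneg_left hH0 (by positivity)
  have hnear := density_near (y0 := y0) (H0 := H0) (y1 := y1) (H1 := z1 - y1) (Δ := Δ) (κ := δ / 2) hy03 g1 g5 (by linarith)
    (by linarith) hΔge (by linarith) (hH0le.trans (le_mul_of_one_le_right (by linarith) hL1)) hκ hgo2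
  have hfin : |density y0 H0 - 1| ≤ δ := by
    calc |density y0 H0 - 1| ≤ |density y0 H0 - density y1 (z1 - y1)| + |density y1 (z1 - y1) - 1| := abs_sub_le _ _ _
      _ ≤ δ / 2 + 10 * ε := add_le_add hnear hgo
      _ ≤ δ := by linarith
  linarith

/-- few cells cover the bad dilations -/
lemma cells {a b δ : ℝ} (ha : 0 < a) (hab : a ≤ b) (hδ : 0 < δ) : ∀ᶠ k : ℕ in atTop, ∃ F : Finset ℕ,
    (F.card : ℝ) ≤ (k : ℝ) ^ (0.691 : ℝ) ∧ ∀ t ∈ Icc a b, t ∈ Wr δ k → ⌊t / (k : ℝ) ^ (-1.001 : ℝ)⌋₊ ∈ F := by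
  classical
  obtain ⟨η, hη, -, h⟩ := vol_bad fg_C (by norm_num) (by norm_num) (by norm_num)
  obtain ⟨ε, hε⟩ : ∃ ε, ε = min (δ / 20) (1 / 10) := ⟨_, rfl⟩
  have hε0 : 0 < ε := by rw [hε]; positivity
  have hε1 : ε ≤ 1 / 10 := by rw [hε]; exact min_le_right _ _
  have hv := h ε (a / 2) (b + 1) hε0 hε1 (by positivity) (by linarith)
  rw [show (1 : ℝ) - 0.501 = 0.499 by norm_num] at hv
  have hvol := BadK_vol hη (a := a / 2) (b := b + 1) (by positivity) (by linarith) hε0 hv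
  have hst := stability ha hab hδ
  rw [← hε] at hst
  filter_upwards [hvol, hst, eventually_ge_atTop 1] with k h1 h2 h3
  have hk0 : (0 : ℝ) < k := by exact_mod_cast h3
  obtain ⟨τ, hτ⟩ : ∃ τ, τ = (k : ℝ) ^ (-1.001 : ℝ) := ⟨_, rfl⟩
  have hτ0 : 0 < τ := by rw [hτ]; positivity
  rw [← hτ] at h2 ⊢
  obtain ⟨F, hF⟩ : ∃ F : Finset ℕ, F = (Finset.range (⌊b / τ⌋₊ + 1)).filter (fun j => ∃ t ∈ Icc a b, t ∈ Wr δ k ∧ ⌊t / τ⌋₊ = j) :=
    ⟨_, rfl⟩
  refine ⟨F, ?_, ?_⟩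
  · have hsub : (⋃ j ∈ F, Ico ((j : ℝ) * τ) (((j : ℝ) + 1) * τ)) ⊆ BadK (a / 2) (b + 1) ε 0.499 k := by
      intro x hx
      rw [Set.mem_iUnion₂] at hx
      obtain ⟨j, hj, hx1, hx2⟩ := hx
      rw [hF, Finset.mem_filter] at hj
      obtain ⟨-, t, ht, htw, htj⟩ := hj
      have ht0 : 0 ≤ t / τ := div_nonneg (ha.le.trans ht.1) hτ0.le
      have q1 : (j : ℝ) * τ ≤ t := by
        rw [← le_div_iff₀ hτ0, ← htj]
        exact Nat.floor_le ht0
      have q2 : t < ((j : ℝ) + 1) * τ := by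
        rw [← div_lt_iff₀ hτ0, ← htj]
        exact Nat.lt_floor_add_one _
      apply h2 t ht htw
      rw [abs_le]
      constructor <;> linarith
    have hdisj : Set.PairwiseDisjoint (F : Set ℕ) (fun j : ℕ => Ico ((j : ℝ) * τ) (((j : ℝ) + 1) * τ)) := by
      intro i _ j _ hij
      rw [Function.onFun, Set.disjoint_left]
      rintro x ⟨hx1, hx2⟩ ⟨hx3, hx4⟩
      apply hij
      have q1 : (i : ℝ) < j + 1 := lt_of_mul_lt_mul_right (hx1.trans_lt hx4) hτ0.le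
      have q2 : (j : ℝ) < i + 1 := lt_of_mul_lt_mul_right (hx3.trans_lt hx2) hτ0.le
      have q3 : i < j + 1 := by exact_mod_cast q1
      have q4 : j < i + 1 := by exact_mod_cast q2
      omega
    have hm := (measure_mono hsub).trans h1
    rw [measure_biUnion_finset hdisj (fun _ _ => measurableSet_Ico)] at hm
    have hterm : ∀ j ∈ F, volume (Ico ((j : ℝ) * τ) (((j : ℝ) + 1) * τ)) = ENNReal.ofReal τ := by
      intro j _
      rw [Real.volume_Ico]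
      congr 1
      ring
    rw [Finset.sum_congr rfl hterm, Finset.sum_const, ← ENNReal.ofReal_nsmul, nsmul_eq_mul,
      ENNReal.ofReal_le_ofReal_iff (by positivity)] at hm
    have h4 : (F.card : ℝ) ≤ (k : ℝ) ^ (-0.31 : ℝ) / τ := by rwa [le_div_iff₀ hτ0]
    refine h4.trans (le_of_eq ?_)
    rw [hτ, ← Real.rpow_sub hk0]
    norm_num
  · intro t ht htw
    rw [hF, Finset.mem_filter]
    refine ⟨?_, t, ht, htw, rfl⟩
    rw [Finset.mem_range]
    have : ⌊t / τ⌋₊ ≤ ⌊b / τ⌋₊ := Nat.floor_le_floor (by gcongr; exact ht.2)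
    omega

end Pool.Agent.H34x.DD
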