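import Pool.Agent.H34x.DD.A

/-!
# The bad dilations of the intervals between consecutive odd squares: Hausdorff dimension
-/

set_option autoImplicit false

namespace Pool.Agent.H34x.DD

open Filter Set MeasureTheory Pool.Agent.U26Z.DX
open scoped ENNReal

/-- one range of dilations, one `δ` -/
lemma dim_one {n m : ℕ} (hm : 1 ≤ m) (hmn : m ≤ n) {s : ℝ} (hs : 0 ≤ s) (S : Set ℕ)
    (hS : ∀ σ : ℝ, s < σ → Summable fun k : S => ((k : ℕ) : ℝ) ^ (-σ)) {a b δ : ℝ} (ha : 0 < a) (hab : a ≤ b) (hδ : 0 < δ) :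
    dimH {l : Fin n → ℝ | (∀ j, l j ∈ Icc a b) ∧ ∃ᶠ k : ℕ in atTop, k ∈ S ∧ ∃ J : Finset (Fin n), J.card = m ∧
      ∀ j ∈ J, l j ∈ Wr δ k} ≤ ENNReal.ofReal (n + s - 0.309 * m) := by
  classical
  have hb : 0 < b := ha.trans_le hab
  obtain ⟨k₀, hk₀⟩ := eventually_atTop.1 (cells ha hab hδ)
  choose! F hF1 hF2 using hk₀
  obtain ⟨τ, hτ⟩ : ∃ τ : ℕ → ℝ, τ = fun k : ℕ => (k : ℝ) ^ (-1.001 : ℝ) := ⟨_, rfl⟩
  have hτk : ∀ k : ℕ, (k : ℝ) ^ (-1.001 : ℝ) = τ k := fun k => by rw [hτ]
  have hτn : ∀ k : ℕ, 0 ≤ τ k := fun k => by rw [hτ]; positivity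
  obtain ⟨N, hN⟩ : ∃ N : ℕ → ℕ, N = fun k => ⌊b / τ k⌋₊ + 1 := ⟨_, rfl⟩
  obtain ⟨G, hG⟩ : ∃ G : ℕ → Finset (Fin n → ℕ), G = fun k => if k ∈ S ∧ k₀ ≤ k ∧ 1 ≤ k then
      (Finset.powersetCard m Finset.univ).biUnion (fun J : Finset (Fin n) =>
        Fintype.piFinset (fun j => if j ∈ J then F k else Finset.range (N k))) else ∅ := ⟨_, rfl⟩
  have hmR : (1 : ℝ) ≤ m := by exact_mod_cast hm
  have hmnR : (m : ℝ) ≤ n := by exact_mod_cast hmn
  have hD : 0 < (n : ℝ) + s - 0.309 * m := by linarith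
  have hc := Pool.Agent.N84.MD.core (X := Fin n → ℝ) (fun (k : ℕ) (i : Fin n → ℕ) => {l : Fin n → ℝ | 1 ≤ k ∧ ∀ j, 0 ≤ l j ∧ ⌊l j / τ k⌋₊ = i j})
    ((n : ℝ) + s - 0.309 * m) hD G τ hτn (fun k i _ => by
      refine Metric.ediam_le fun x hx y hy => ?_
      obtain ⟨hk1, hx1⟩ := hx
      obtain ⟨-, hy1⟩ := hy
      have hk0 : (0 : ℝ) < k := by exact_mod_cast hk1
      have hτ0 : 0 < τ k := by rw [hτ]; positivity
      rw [edist_pi_le_iff]
      intro j
      rw [edist_dist, Real.dist_eq]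
      apply ENNReal.ofReal_le_ofReal
      obtain ⟨p1, p2⟩ := hx1 j
      obtain ⟨q1, q2⟩ := hy1 j
      have a1 := Nat.floor_le (div_nonneg p1 hτ0.le)
      have a2 := Nat.lt_floor_add_one (x j / τ k)
      have b1 := Nat.floor_le (div_nonneg q1 hτ0.le)
      have b2 := Nat.lt_floor_add_one (y j / τ k)
      rw [p2, le_div_iff₀ hτ0] at a1
      rw [p2, div_lt_iff₀ hτ0] at a2
      rw [q2, le_div_iff₀ hτ0] at b1
      rw [q2, div_lt_iff₀ hτ0] at b2
      rw [abs_le]
      constructor <;> nlinarith) (by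
    obtain ⟨σ, hσ⟩ : ∃ σ : ℝ, σ = 1.001 * s + 0.000691 * m := ⟨_, rfl⟩
    have hσs : s < σ := by rw [hσ]; nlinarith
    have hsum := (summable_subtype_iff_indicator (f := fun k : ℕ => (k : ℝ) ^ (-σ)) (s := S)).1 (hS σ hσs)
    refine Summable.of_nonneg_of_le (fun k => mul_nonneg (Nat.cast_nonneg _) (Real.rpow_nonneg (hτn k) _)) (fun k => ?_)
      (hsum.mul_left (((n.choose m : ℕ) : ℝ) * (b + 1) ^ (n - m)))
    rw [hG]
    simp only
    split_ifs with h
    · rw [Set.indicator_of_mem h.1]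
      have hk0 : (0 : ℝ) < k := by exact_mod_cast h.2.2
      have hk1 : (1 : ℝ) ≤ k := by exact_mod_cast h.2.2
      have hτ0 : 0 < τ k := by rw [hτ]; positivity
      have hNk : (N k : ℝ) ≤ (b + 1) * (k : ℝ) ^ (1.001 : ℝ) := by
        rw [hN]
        push_cast
        have h1 := Nat.floor_le (div_nonneg hb.le hτ0.le)
        have h2 : b / τ k = b * (k : ℝ) ^ (1.001 : ℝ) := by
          rw [← hτk, div_eq_mul_inv, ← Real.rpow_neg hk0.le]
          norm_num
        have h3 : 1 ≤ (k : ℝ) ^ (1.001 : ℝ) := Real.one_le_rpow hk1 (by norm_num)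
        rw [h2] at h1 ⊢
        linarith
      have hcard : (((Finset.powersetCard m Finset.univ).biUnion (fun J : Finset (Fin n) =>
          Fintype.piFinset (fun j => if j ∈ J then F k else Finset.range (N k)))).card : ℝ) ≤
          ((n.choose m : ℕ) : ℝ) * (((k : ℝ) ^ (0.691 : ℝ)) ^ m * ((b + 1) * (k : ℝ) ^ (1.001 : ℝ)) ^ (n - m)) := by
        have h1 : ∀ J ∈ Finset.powersetCard m (Finset.univ : Finset (Fin n)),
            ((Fintype.piFinset (fun j => if j ∈ J then F k else Finset.range (N k))).card : ℝ) ≤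
              ((k : ℝ) ^ (0.691 : ℝ)) ^ m * ((b + 1) * (k : ℝ) ^ (1.001 : ℝ)) ^ (n - m) := by
          intro J hJ
          rw [Finset.mem_powersetCard] at hJ
          have h2 : (Fintype.piFinset (fun j => if j ∈ J then F k else Finset.range (N k))).card =
              (F k).card ^ m * (N k) ^ (n - m) := by
            rw [Fintype.card_piFinset]
            have h3 : ∀ j : Fin n, (if j ∈ J then F k else Finset.range (N k)).card = if j ∈ J then (F k).card else N k := by
              intro j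
              split_ifs
              · rfl
              · rw [Finset.card_range]
            rw [Finset.prod_congr rfl (fun j _ => h3 j), Finset.prod_ite, Finset.prod_const, Finset.prod_const]
            have h4 : (Finset.univ.filter (fun j : Fin n => j ∈ J)).card = m := by
              rw [Finset.filter_mem_eq_inter, Finset.univ_inter]
              exact hJ.2
            have h5 : (Finset.univ.filter (fun j : Fin n => j ∉ J)).card = n - m := by
              have h6 := Finset.card_filter_add_card_filter_not (s := (Finset.univ : Finset (Fin n))) (fun j : Fin n => j ∈ J)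
              rw [h4, Finset.card_univ, Fintype.card_fin] at h6
              omega
            rw [h4, h5]
          rw [h2]
          push_cast
          have h7 := hF1 k h.2.1
          exact mul_le_mul (pow_le_pow_left₀ (Nat.cast_nonneg _) h7 m) (pow_le_pow_left₀ (Nat.cast_nonneg _) hNk _)
            (pow_nonneg (Nat.cast_nonneg _) _) (pow_nonneg (Real.rpow_nonneg hk0.le _) _)
        calc (((Finset.powersetCard m Finset.univ).biUnion (fun J : Finset (Fin n) =>
              Fintype.piFinset (fun j => if j ∈ J then F k else Finset.range (N k)))).card : ℝ)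
            ≤ ((∑ J ∈ Finset.powersetCard m (Finset.univ : Finset (Fin n)),
              (Fintype.piFinset (fun j => if j ∈ J then F k else Finset.range (N k))).card : ℕ) : ℝ) := by
              exact_mod_cast Finset.card_biUnion_le
          _ ≤ ∑ J ∈ Finset.powersetCard m (Finset.univ : Finset (Fin n)),
              ((k : ℝ) ^ (0.691 : ℝ)) ^ m * ((b + 1) * (k : ℝ) ^ (1.001 : ℝ)) ^ (n - m) := by
              push_cast
              exact Finset.sum_le_sum h1
          _ = _ := by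
              rw [Finset.sum_const, Finset.card_powersetCard, Finset.card_univ, Fintype.card_fin, nsmul_eq_mul]
      have hkey : ((k : ℝ) ^ (0.691 : ℝ)) ^ m * ((k : ℝ) ^ (1.001 : ℝ)) ^ (n - m) * τ k ^ ((n : ℝ) + s - 0.309 * m) = (k : ℝ) ^ (-σ) := by
        rw [← hτk, ← Real.rpow_natCast, ← Real.rpow_mul hk0.le, ← Real.rpow_natCast, ← Real.rpow_mul hk0.le,
          ← Real.rpow_mul hk0.le, ← Real.rpow_add hk0, ← Real.rpow_add hk0]
        congr 1
        rw [hσ, Nat.cast_sub hmn]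
        ring
      calc (((Finset.powersetCard m Finset.univ).biUnion (fun J : Finset (Fin n) =>
              Fintype.piFinset (fun j => if j ∈ J then F k else Finset.range (N k)))).card : ℝ) * τ k ^ ((n : ℝ) + s - 0.309 * m)
          ≤ (((n.choose m : ℕ) : ℝ) * (((k : ℝ) ^ (0.691 : ℝ)) ^ m * ((b + 1) * (k : ℝ) ^ (1.001 : ℝ)) ^ (n - m))) *
            τ k ^ ((n : ℝ) + s - 0.309 * m) := mul_le_mul_of_nonneg_right hcard (by positivity)
        _ = ((n.choose m : ℕ) : ℝ) * (b + 1) ^ (n - m) *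
            (((k : ℝ) ^ (0.691 : ℝ)) ^ m * ((k : ℝ) ^ (1.001 : ℝ)) ^ (n - m) * τ k ^ ((n : ℝ) + s - 0.309 * m)) := by
            rw [mul_pow]
            ring
        _ = _ := by rw [hkey]
    · rw [Finset.card_empty, Nat.cast_zero, zero_mul]
      have h1 : 0 ≤ S.indicator (fun k : ℕ => (k : ℝ) ^ (-σ)) k := Set.indicator_nonneg (fun _ _ => by positivity) k
      positivity)
  refine le_trans (dimH_mono ?_) hc
  rintro l ⟨hl1, hl2⟩
  have h3 := hl2.and_eventually ((eventually_ge_atTop k₀).and (eventually_ge_atTop 1))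
  refine h3.mono fun k => ?_
  rintro ⟨⟨hkS, J, hJ, hJ2⟩, h4, h5⟩
  have hk0 : (0 : ℝ) < k := by exact_mod_cast h5
  have hτ0 : 0 < τ k := by rw [hτ]; positivity
  refine ⟨fun j => ⌊l j / τ k⌋₊, ?_, h5, fun j => ⟨ha.le.trans (hl1 j).1, rfl⟩⟩
  rw [hG]
  simp only
  rw [if_pos ⟨hkS, h4, h5⟩, Finset.mem_biUnion]
  refine ⟨J, Finset.mem_powersetCard.2 ⟨Finset.subset_univ _, hJ⟩, ?_⟩
  rw [Fintype.mem_piFinset]
  intro j
  split_ifs with h6
  · rw [← hτk]
    exact hF2 k h4 (l j) (hl1 j) (hJ2 j h6)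
  · rw [Finset.mem_range, hN]
    have : ⌊l j / τ k⌋₊ ≤ ⌊b / τ k⌋₊ := Nat.floor_le_floor (by gcongr; exact (hl1 j).2)
    simp only
    omega

/-- a measure with small balls does not charge sets of small dimension -/
lemma null_of_dim {n : ℕ} (μ : Measure (Fin n → ℝ)) {C σ : ℝ} (hμ : ∀ (x : Fin n → ℝ) (r : ℝ), 0 < r →
    μ (Metric.closedBall x r) ≤ ENNReal.ofReal (C * r ^ σ)) {E : Set (Fin n → ℝ)} {d : ℝ} (hd : 0 ≤ d) (hdσ : d < σ)
    (hE : dimH E ≤ ENNReal.ofReal d) : μ E = 0 := by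
  obtain ⟨ρ, hρ1, hρ2⟩ := exists_between hdσ
  have hρ0 : 0 < ρ := hd.trans_lt hρ1
  have h0 : μH[ρ] E = 0 := by
    have h1 : dimH E < (ρ.toNNReal : ℝ≥0∞) := by
      refine hE.trans_lt ?_
      exact (ENNReal.ofReal_lt_ofReal_iff hρ0).2 hρ1
    have h2 := hausdorffMeasure_of_dimH_lt h1
    rwa [Real.coe_toNNReal ρ hρ0.le] at h2
  obtain ⟨ε, hε0, hε⟩ : ∃ ε : ℝ, 0 < ε ∧ ∀ r : ℝ, 0 < r → r ≤ ε → C * r ^ σ ≤ r ^ ρ := by
    refine ⟨(1 / (|C| + 1)) ^ (1 / (σ - ρ)), by positivity, fun r hr hr2 => ?_⟩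
    have h1 : r ^ (σ - ρ) ≤ 1 / (|C| + 1) := by
      have h2 := Real.rpow_le_rpow hr.le hr2 (show 0 ≤ σ - ρ by linarith)
      rw [← Real.rpow_mul (by positivity), one_div_mul_cancel (by linarith), Real.rpow_one] at h2
      exact h2
    have h3 : r ^ σ = r ^ (σ - ρ) * r ^ ρ := by
      rw [← Real.rpow_add hr]
      congr 1
      ring
    have h4 : C * r ^ (σ - ρ) ≤ 1 := by
      have h5 : C * r ^ (σ - ρ) ≤ |C| * r ^ (σ - ρ) := mul_le_mul_of_nonneg_right (le_abs_self C) (by positivity)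
      have h6 : |C| * r ^ (σ - ρ) ≤ (|C| + 1) * (1 / (|C| + 1)) := by
        apply mul_le_mul (by linarith) h1 (by positivity) (by positivity)
      rw [mul_one_div_cancel (by positivity)] at h6
      linarith
    rw [h3, ← mul_assoc]
    have h7 : 0 < r ^ ρ := by positivity
    nlinarith
  have hle : μ ≤ μH[ρ] := by
    apply Measure.le_hausdorffMeasure ρ μ (ENNReal.ofReal ε) (by simpa using hε0)
    intro A hA
    rcases A.eq_empty_or_nonempty with h | ⟨x, hx⟩
    · rw [h, measure_empty]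
      exact zero_le
    · -- every larger radius
      have hdt : Metric.ediam A ≠ ⊤ := ne_top_of_le_ne_top ENNReal.ofReal_ne_top hA
      obtain ⟨D, hD⟩ : ∃ D, D = (Metric.ediam A).toReal := ⟨_, rfl⟩
      have hDA : Metric.ediam A = ENNReal.ofReal D := by rw [hD, ENNReal.ofReal_toReal hdt]
      have hD0 : 0 ≤ D := by rw [hD]; positivity
      have hball : ∀ r : ℝ, D ≤ r → A ⊆ Metric.closedBall x r := by
        intro r hr y hy
        rw [Metric.mem_closedBall, ← ENNReal.ofReal_le_ofReal_iff (by linarith), ← edist_dist]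
        refine (Metric.edist_le_ediam_of_mem hy hx).trans ?_
        rw [hDA]
        exact ENNReal.ofReal_le_ofReal hr
      have hDε : D ≤ ε := by
        rw [hDA] at hA
        exact (ENNReal.ofReal_le_ofReal_iff hε0.le).1 hA
      rw [hDA, ENNReal.ofReal_rpow_of_nonneg hD0 hρ0.le]
      rcases hD0.eq_or_lt with h | h
      · rw [← h, Real.zero_rpow hρ0.ne', ENNReal.ofReal_zero]
        -- the mass of a point
        refine le_of_forall_gt fun c hc => ?_
        obtain ⟨r, hr0, hrε, hrc⟩ : ∃ r : ℝ, 0 < r ∧ r ≤ ε ∧ ENNReal.ofReal (r ^ ρ) < c := by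
          have ht : Tendsto (fun r : ℝ => ENNReal.ofReal (r ^ ρ)) (nhdsWithin 0 (Ioi 0)) (nhds 0) := by
            have h1 : Tendsto (fun r : ℝ => r ^ ρ) (nhdsWithin 0 (Ioi 0)) (nhds 0) := by
              have h2 := (Real.continuousAt_rpow_const 0 ρ (Or.inr hρ0.le)).tendsto
              rw [Real.zero_rpow hρ0.ne'] at h2
              exact h2.mono_left nhdsWithin_le_nhds
            have h3 := (ENNReal.continuous_ofReal.tendsto 0).comp h1
            rwa [ENNReal.ofReal_zero] at h3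
          have h4 := (ht.eventually_lt_const hc).and (Ioc_mem_nhdsGT hε0)
          obtain ⟨r, h5, h6⟩ := h4.exists
          exact ⟨r, h6.1, h6.2, h5⟩
        calc μ A ≤ μ (Metric.closedBall x r) := measure_mono (hball r (by linarith))
          _ ≤ ENNReal.ofReal (C * r ^ σ) := hμ x r hr0
          _ ≤ ENNReal.ofReal (r ^ ρ) := ENNReal.ofReal_le_ofReal (hε r hr0 hrε)
          _ < c := hrc
      · calc μ A ≤ μ (Metric.closedBall x D) := measure_mono (hball D le_rfl)
          _ ≤ ENNReal.ofReal (C * D ^ σ) := hμ x D h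
          _ ≤ ENNReal.ofReal (D ^ ρ) := ENNReal.ofReal_le_ofReal (hε D h hDε)
  have := hle E
  rw [h0] at this
  exact le_antisymm this zero_le

end Pool.Agent.H34x.DD
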